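import Pool.Agent.H2.Sink1

/-!
The unordered configuration space of two points on the rose with three petals, whose vertex is a
sink, has nontrivial second homotopy group.
-/

namespace Pool.Agent.Results.MP_c15946_gt.Rose

open Set Metric unitInterval Pool.Agent.H2.Sink

section defs
variable {V E : Type} (s t : E → V)

/-- The graph (1-dimensional CW complex) with vertex set `V`, edge set `E` and end-point maps
`s`, `t`: the quotient of `V ⊔ (E × [0,1])` (with `V`, `E` discrete) gluing `(e,0)` to `s e` and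
`(e,1)` to `t e`. -/
def Gr : Type :=
  Quot fun a b : (Σ _ : V, Unit) ⊕ (Σ _ : E, I) =>
    ∃ e, (a = Sum.inl ⟨s e, ()⟩ ∧ b = Sum.inr ⟨e, 0⟩) ∨ (a = Sum.inl ⟨t e, ()⟩ ∧ b = Sum.inr ⟨e, 1⟩)

instance : TopologicalSpace (Gr s t) := inferInstanceAs (TopologicalSpace (Quot _))

/-- the point of the graph given by a vertex -/
def vtx (v : V) : Gr s t := Quot.mk _ (Sum.inl ⟨v, ()⟩)

/-- the ordered configuration space `F_k(Γ,S)`, a subspace of `Γ^k` -/
def Fk (S : Set V) (k : ℕ) : Set (Fin k → Gr s t) :=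
  {x | ∀ i j, i ≠ j → x i = x j → ∃ v ∈ S, x i = vtx s t v}

/-- the unordered configuration space `B_k(Γ,S) = F_k(Γ,S)/Σ_k` with the quotient topology -/
def Bk (S : Set V) (k : ℕ) : Type :=
  Quot fun x y : Fk s t S k => ∃ g : Equiv.Perm (Fin k), ∀ i, y.1 i = x.1 (g i)

instance (S : Set V) (k : ℕ) : TopologicalSpace (Bk s t S k) :=
  inferInstanceAs (TopologicalSpace (Quot _))

/-- every path component has trivial homotopy groups `π_n`, `n ≥ 2` -/
def Aspherical (X : Type) [TopologicalSpace X] : Prop :=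
  ∀ (x : X) (n : ℕ), 2 ≤ n →
    Subsingleton (HomotopyGroup (Fin n) (pathComponent x) ⟨x, mem_pathComponent_self x⟩)

end defs

/-- the unique end-point map of the rose with three petals -/
def pt : Fin 3 → Unit := fun _ => ()

abbrev R : Type := Gr pt pt
abbrev X : Type := Bk pt pt univ 2

def ed (i : Fin 3) (a : I) : R := Quot.mk _ (Sum.inr ⟨i, a⟩)
def v0 : R := vtx pt pt ()

lemma ed_zero (i : Fin 3) : ed i 0 = v0 := (Quot.sound ⟨i, Or.inl ⟨rfl, rfl⟩⟩).symm
lemma ed_one (i : Fin 3) : ed i 1 = v0 := (Quot.sound ⟨i, Or.inr ⟨rfl, rfl⟩⟩).symm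
lemma ed_cont (i : Fin 3) : Continuous (ed i) :=
  continuous_quot_mk.comp (continuous_inr.comp continuous_sigmaMk)

noncomputable def mu0 (i : Fin 3) : (Σ _ : Unit, Unit) ⊕ (Σ _ : Fin 3, I) → AddCircle (1 : ℝ)
  | Sum.inl _ => 0
  | Sum.inr ⟨j, a⟩ => if j = i then ((a : ℝ) : AddCircle (1 : ℝ)) else 0

lemma coe_one : (((1 : ℝ)) : AddCircle (1 : ℝ)) = 0 := AddCircle.coe_period 1

noncomputable def mu (i : Fin 3) : R → AddCircle (1 : ℝ) :=
  Quot.lift (mu0 i) (by
    rintro a b ⟨e, ⟨rfl, rfl⟩ | ⟨rfl, rfl⟩⟩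
    · simp [mu0]
    · simp [mu0, coe_one])

lemma mu_cont (i : Fin 3) : Continuous (mu i) := by
  refine continuous_quot_lift _ (continuous_sum_dom.mpr ⟨continuous_const,
    continuous_sigma fun j => ?_⟩)
  show Continuous fun a : I => if j = i then ((a : ℝ) : AddCircle (1 : ℝ)) else 0
  split_ifs
  · exact (AddCircle.continuous_mk' 1).comp continuous_subtype_val
  · exact continuous_const

lemma mu_ed (i j : Fin 3) (a : I) :
    mu i (ed j a) = if j = i then ((a : ℝ) : AddCircle (1 : ℝ)) else 0 := rfl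

lemma mu_v0 (i : Fin 3) : mu i v0 = 0 := rfl

lemma mu_single (p : R) : ∃ j, ∀ i, i ≠ j → mu i p = 0 := by
  obtain ⟨_ | ⟨j, a⟩⟩ := p
  · exact ⟨0, fun _ _ => rfl⟩
  · exact ⟨j, fun i hi => if_neg (Ne.symm hi)⟩

lemma ed_eq {i j : Fin 3} (h : i ≠ j) {a b : I} (e : ed i a = ed j b) : ed i a = v0 := by
  have := congrArg (mu i) e
  rw [mu_ed, mu_ed, if_pos rfl, if_neg h.symm, AddCircle.coe_eq_zero_iff] at this
  obtain ⟨n, hn⟩ := this
  simp only [zsmul_eq_mul, mul_one] at hn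
  have h0 : (0 : ℝ) ≤ n := hn ▸ a.2.1
  have h1 : (n : ℝ) ≤ 1 := hn ▸ a.2.2
  have h0' : 0 ≤ n := by exact_mod_cast h0
  have h1' : n ≤ 1 := by exact_mod_cast h1
  have : n = 0 ∨ n = 1 := by omega
  rcases this with rfl | rfl
  · have : a = 0 := Subtype.ext (by simpa using hn.symm)
    rw [this, ed_zero]
  · have : a = 1 := Subtype.ext (by simpa using hn.symm)
    rw [this, ed_one]

/-- the class of a pair -/
def pr (p q : R) (h : p = q → p = v0) : X :=
  Quot.mk _ ⟨![p, q], by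
    intro i j hij e
    refine ⟨(), trivial, ?_⟩
    fin_cases i <;> fin_cases j
    · exact absurd rfl hij
    · exact h e
    · exact e.trans (h e.symm)
    · exact absurd rfl hij⟩

lemma pr_congr {p q p' q' : R} {h h'} (e1 : p = p') (e2 : q = q') : pr p q h = pr p' q' h' := by
  subst e1 e2; rfl

lemma pr_swap {p q p' q' : R} {h h'} (e1 : p = q') (e2 : q = p') : pr p q h = pr p' q' h' := by
  subst e1 e2
  exact Quot.sound ⟨Equiv.swap 0 1, fun i => by fin_cases i <;> rfl⟩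

noncomputable def M (i : Fin 3) : X → AddCircle (1 : ℝ) :=
  Quot.lift (fun x => ∑ j, mu i (x.1 j)) (by
    rintro x y ⟨g, h⟩
    simp only [h]
    exact (Equiv.sum_comp g fun j => mu i (x.1 j)).symm)

lemma M_cont (i : Fin 3) : Continuous (M i) :=
  continuous_quot_lift _ (continuous_finsetSum _ fun j _ =>
    (mu_cont i).comp ((continuous_apply j).comp continuous_subtype_val))

lemma M_pr (i : Fin 3) (p q : R) (h) : M i (pr p q h) = mu i p + mu i q := by
  show ∑ j, mu i (![p, q] j) = _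
  simp

lemma M_zero (x : X) : ∃ k, M k x = 0 := by
  obtain ⟨x⟩ := x
  obtain ⟨a, ha⟩ := mu_single (x.1 0)
  obtain ⟨b, hb⟩ := mu_single (x.1 1)
  obtain ⟨k, h1, h2⟩ : ∃ k, k ≠ a ∧ k ≠ b := (by decide : ∀ a b : Fin 3, ∃ k, k ≠ a ∧ k ≠ b) a b
  refine ⟨k, ?_⟩
  show ∑ j, mu k (x.1 j) = 0
  simp [ha k h1, hb k h2]

/-- coordinates in `[0,1]` -/
noncomputable def sI (x : Fin 3 → ℝ) (i : Fin 3) : I := ⟨ss x i, ss_mem x i⟩

noncomputable def tk (i j : Fin 3) (h : i ≠ j) (x : Fin 3 → ℝ) : X :=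
  pr (ed i (sI x i)) (ed j (sI x j)) (ed_eq h)

lemma tk_cont (i j : Fin 3) (h : i ≠ j) : Continuous (tk i j h) := by
  refine continuous_quot_mk.comp (Continuous.subtype_mk (continuous_pi fun k => ?_) _)
  fin_cases k
  · exact (ed_cont i).comp ((ss_cont i).subtype_mk _)
  · exact (ed_cont j).comp ((ss_cont j).subtype_mk _)

def Fc (k : Fin 3) : Set (Fin 3 → ℝ) := {x | ss x k = 0 ∨ ss x k = 1}

lemma Fc_closed (k : Fin 3) : IsClosed (Fc k) :=
  (isClosed_eq (ss_cont k) continuous_const).union (isClosed_eq (ss_cont k) continuous_const)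

lemma Fc_ed {k : Fin 3} {x} (h : x ∈ Fc k) : ed k (sI x k) = v0 := by
  rcases h with h | h
  · rw [show sI x k = 0 from Subtype.ext h, ed_zero]
  · rw [show sI x k = 1 from Subtype.ext h, ed_one]

lemma Fc_coe {k : Fin 3} {x} (h : x ∈ Fc k) : ((ss x k : ℝ) : AddCircle (1 : ℝ)) = 0 := by
  rcases h with h | h
  · rw [h]; rfl
  · rw [h, coe_one]

open Classical in
noncomputable def tau (x : Fin 3 → ℝ) : X :=
  if x ∈ Fc 0 then tk 1 2 (by decide) x else if x ∈ Fc 1 then tk 0 2 (by decide) x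
  else tk 0 1 (by decide) x

lemma tau0 {x} (h : x ∈ Fc 0) : tau x = tk 1 2 (by decide) x := if_pos h

lemma tau1 {x} (h : x ∈ Fc 1) : tau x = tk 0 2 (by decide) x := by
  unfold tau
  split_ifs with h0
  · exact pr_congr ((Fc_ed h).trans (Fc_ed h0).symm) rfl
  · rfl

lemma tau2 {x} (h : x ∈ Fc 2) : tau x = tk 0 1 (by decide) x := by
  unfold tau
  split_ifs with h0 h1
  · exact pr_swap rfl ((Fc_ed h).trans (Fc_ed h0).symm)
  · exact pr_congr rfl ((Fc_ed h).trans (Fc_ed h1).symm)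
  · rfl

lemma tau_cont : Continuous tau := by
  have h : Fc 0 ∪ Fc 1 ∪ Fc 2 = univ := by
    refine eq_univ_of_forall fun x => ?_
    obtain ⟨k, hk⟩ := ss_face x
    fin_cases k
    exacts [Or.inl (Or.inl hk), Or.inl (Or.inr hk), Or.inr hk]
  rw [← continuousOn_univ, ← h]
  refine ContinuousOn.union_of_isClosed (ContinuousOn.union_of_isClosed ?_ ?_ (Fc_closed 0)
    (Fc_closed 1)) ?_ ((Fc_closed 0).union (Fc_closed 1)) (Fc_closed 2)
  · exact (tk_cont _ _ _).continuousOn.congr fun x hx => tau0 hx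
  · exact (tk_cont _ _ _).continuousOn.congr fun x hx => tau1 hx
  · exact (tk_cont _ _ _).continuousOn.congr fun x hx => tau2 hx

lemma M_tau (x : Fin 3 → ℝ) (i : Fin 3) : M i (tau x) = (ss x i : ℝ) := by
  obtain ⟨k, hk⟩ := ss_face x
  have hc := Fc_coe hk
  fin_cases k
  · rw [tau0 hk, tk, M_pr, mu_ed, mu_ed]
    fin_cases i
    exacts [by simpa using hc.symm, by simp [sI], by simp [sI]]
  · rw [tau1 hk, tk, M_pr, mu_ed, mu_ed]
    fin_cases i
    exacts [by simp [sI], by simpa using hc.symm, by simp [sI]]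
  · rw [tau2 hk, tk, M_pr, mu_ed, mu_ed]
    fin_cases i
    exacts [by simp [sI], by simp [sI], by simpa using hc.symm]

/-- base point: both particles at the vertex -/
def x0 : X := pr v0 v0 fun _ => rfl

lemma tau_bdry {x} (h : rr x = 1) : tau x = x0 := by
  have e : ∀ k, x ∈ Fc k := fun k => Or.inl (ss_bdry h k)
  rw [tau0 (e 0)]
  exact pr_congr (Fc_ed (e 1)) (Fc_ed (e 2))

noncomputable def sig (u : Fin 2 → I) : X := tau ![2 * u 0 - 1, 2 * u 1 - 1, -1]

lemma sig_cont : Continuous sig := by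
  refine tau_cont.comp (continuous_pi fun i => ?_)
  fin_cases i <;> simp <;> fun_prop

lemma sig_bdry (u : Fin 2 → I) (hu : u ∈ Cube.boundary (Fin 2)) : sig u = x0 := by
  apply tau_bdry
  have b : ∀ i, |2 * (u i : ℝ) - 1| ≤ 1 := fun i =>
    abs_le.mpr ⟨by linarith [(u i).2.1], by linarith [(u i).2.2]⟩
  have c : ∀ i, u i = 0 ∨ u i = 1 → |2 * (u i : ℝ) - 1| = 1 := by
    rintro i (h | h) <;> rw [h] <;> norm_num
  show max |2 * (u 0 : ℝ) - 1| |2 * (u 1 : ℝ) - 1| = 1
  obtain ⟨i, hi⟩ := hu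
  fin_cases i
  · rw [c 0 hi]; exact max_eq_left (b 1)
  · rw [c 1 hi]; exact max_eq_right (b 0)

lemma sig_mem (u : Fin 2 → I) : sig u ∈ pathComponent x0 := by
  haveI : PathConnectedSpace I := isPathConnected_iff_pathConnectedSpace.mp
    ((convex_Icc (0 : ℝ) 1).isPathConnected ⟨0, by simp⟩)
  have h : x0 ∈ range sig := ⟨fun _ => 0, sig_bdry _ ⟨0, Or.inl rfl⟩⟩
  exact (isPathConnected_range sig_cont).subset_pathComponent h (mem_range_self u)

noncomputable def cl (a : ℝ) : I := projIcc 0 1 zero_le_one ((a + 1) / 2)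

lemma cl_cont : Continuous cl := continuous_projIcc.comp (by fun_prop)

lemma cl_val {a : ℝ} (h : |a| ≤ 1) : (cl a : ℝ) = (a + 1) / 2 := by
  have := abs_le.mp h
  rw [cl, projIcc_of_mem _ ⟨by linarith, by linarith⟩]

theorem not_asph : ¬ Subsingleton
    (HomotopyGroup (Fin 2) (pathComponent x0) ⟨x0, mem_pathComponent_self x0⟩) := by
  intro hs
  let g : GenLoop (Fin 2) (pathComponent x0) ⟨x0, mem_pathComponent_self x0⟩ :=
    ⟨⟨fun u => ⟨sig u, sig_mem u⟩, sig_cont.subtype_mk _⟩,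
      fun u hu => Subtype.ext (sig_bdry u hu)⟩
  have h : GenLoop.Homotopic g GenLoop.const :=
    Quotient.exact (s := GenLoop.Homotopic.setoid _ _) (hs.elim _ _)
  obtain ⟨H⟩ := h
  let P : (Fin 3 → ℝ) → I × (Fin 2 → I) := fun x => (cl (x 2), ![cl (x 0), cl (x 1)])
  have hP : Continuous P := by
    have := cl_cont
    refine Continuous.prodMk (by fun_prop) (continuous_pi fun i => ?_)
    fin_cases i <;> simp <;> fun_prop
  have c0 : cl (-1) = 0 := Subtype.ext (by rw [cl_val (by simp)]; norm_num)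
  have c1 : cl 1 = 1 := Subtype.ext (by rw [cl_val (by simp)]; norm_num)
  have cb : ∀ a : ℝ, |a| = 1 → cl a = 0 ∨ cl a = 1 := by
    intro a ha
    rcases (abs_eq zero_le_one).mp ha with rfl | rfl
    exacts [Or.inr c1, Or.inl c0]
  have Mx0 : ∀ i, M i x0 = 0 := fun i => by rw [x0, M_pr, mu_v0, add_zero]
  refine core (fun i => ⟨fun x => M i (H (P x)).1, (M_cont i).comp
    (continuous_subtype_val.comp (H.continuous.comp hP))⟩) (fun x => M_zero _) ?_ ?_
  · intro x hx h2 i
    have hle := mem_ball_iff.mp hx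
    show M i (H (cl (x 2), ![cl (x 0), cl (x 1)])).1 = _
    rw [h2, c0, H.apply_zero]
    show M i (tau ![2 * (cl (x 0) : ℝ) - 1, 2 * (cl (x 1) : ℝ) - 1, -1]) = _
    rw [M_tau, cl_val (hle 0), cl_val (hle 1)]
    congr 2
    funext j
    fin_cases j
    · simp; ring
    · simp; ring
    · simp [h2]
  · intro x _ h i
    show M i (H (cl (x 2), ![cl (x 0), cl (x 1)])).1 = _
    rcases h with h | h
    · have hb : ![cl (x 0), cl (x 1)] ∈ Cube.boundary (Fin 2) := by
        rcases max_choice |x 0| |x 1| with e | e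
        · exact ⟨0, cb _ (e.symm.trans h)⟩
        · exact ⟨1, cb _ (e.symm.trans h)⟩
      rw [H.eq_snd _ hb]
      exact Mx0 i
    · rw [h, c1, H.apply_one]
      exact Mx0 i

/-- (1) For the rose with three petals with its vertex as sink, `B_2` is not aspherical: `π_2` of
a path component is nontrivial.  (2) Hence the statement of Q1 fails. -/
theorem result :
    (∃ x : Bk pt pt univ 2, Nontrivial
      (HomotopyGroup (Fin 2) (pathComponent x) ⟨x, mem_pathComponent_self x⟩)) ∧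
    ¬ ∀ (V E : Type) [Finite V] [Finite E] (s t : E → V) (S : Set V) (k : ℕ),
      Aspherical (Fk s t S k) ∧ Aspherical (Bk s t S k) :=
  ⟨⟨x0, not_subsingleton_iff_nontrivial.mp not_asph⟩,
    fun h => not_asph ((h Unit (Fin 3) pt pt univ 2).2 x0 2 le_rfl)⟩

end Pool.Agent.Results.MP_c15946_gt.Rose
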